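import Pool.Agent.H66.SG.T7
import Pool.Agent.H40.AG.Base

/-!
ABSOLUTE GAP (`MP_c59857_nt`), row MSM: the mismatch of the selected reference and the last point.
-/

set_option autoImplicit false
set_option linter.unusedSectionVars false

open MeasureTheory ProbabilityTheory Filter Topology Finset
open scoped Nat ENNReal

namespace Pool.Agent.H66.SG.MSM

open Pool.Agent.H67.AG
open Pool.Agent.H40.AG (inv_le rt_le set_inv_iff meas_it mp_it bint av_meas av_bdd TT_it)

section one

variable (c : CtxE)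

/-- mismatch of two points -/
noncomputable def mm (i : Fin c.k) (x y : c.X) : ℝ := dl c.D1 c.D2 i (x, y)

theorem mm_eq {i : Fin c.k} {x y : c.X} (h : c.Dt i x = c.Dt i y) : mm c i x y = 0 := if_pos h

theorem mm_ne {i : Fin c.k} {x y : c.X} (h : c.Dt i x ≠ c.Dt i y) : mm c i x y = 1 := if_neg h

theorem mm_nonneg (i : Fin c.k) (x y : c.X) : 0 ≤ mm c i x y := by
  by_cases h : c.Dt i x = c.Dt i y
  · rw [mm_eq c h]
  · rw [mm_ne c h]; norm_num

theorem mm_le_one (i : Fin c.k) (x y : c.X) : mm c i x y ≤ 1 := by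
  by_cases h : c.Dt i x = c.Dt i y
  · rw [mm_eq c h]; norm_num
  · rw [mm_ne c h]

theorem mm_comm (i : Fin c.k) (x y : c.X) : mm c i x y = mm c i y x := by
  by_cases h : c.Dt i x = c.Dt i y
  · rw [mm_eq c h, mm_eq c h.symm]
  · rw [mm_ne c h, mm_ne c (Ne.symm h)]

theorem mm_tri (i : Fin c.k) (x y z : c.X) : mm c i x z ≤ mm c i x y + mm c i y z := by
  by_cases h : c.Dt i x = c.Dt i z
  · rw [mm_eq c h]
    exact add_nonneg (mm_nonneg c _ _ _) (mm_nonneg c _ _ _)
  · by_cases h1 : c.Dt i x = c.Dt i y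
    · have h2 : c.Dt i y ≠ c.Dt i z := fun h2 => h (h1.trans h2)
      rw [mm_ne c h, mm_eq c h1, mm_ne c h2]; norm_num
    · rw [mm_ne c h, mm_ne c h1]
      linarith [mm_nonneg c i y z]

theorem dL_eq (W L : ℕ) (x y : c.X) :
    c.dL W L (x, y) = ∑ i, (∑ l ∈ range L, mm c i (c.T^[W * l] x) (c.T^[W * l] y)) / L := by
  unfold CtxE.dL Av
  refine Finset.sum_congr rfl fun i _ => ?_
  congr 1
  refine Finset.sum_congr rfl fun l _ => ?_
  rw [TT_it]
  rfl

theorem dL_nonneg (W L : ℕ) (x y : c.X) : 0 ≤ c.dL W L (x, y) := by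
  rw [dL_eq]
  exact Finset.sum_nonneg fun i _ =>
    div_nonneg (Finset.sum_nonneg fun l _ => mm_nonneg c _ _ _) (Nat.cast_nonneg _)

theorem dL_le (W L : ℕ) (hL : 0 < L) (x y : c.X) : c.dL W L (x, y) ≤ c.k := by
  rw [dL_eq]
  have hLR : (0 : ℝ) < L := by exact_mod_cast hL
  calc _ ≤ ∑ i : Fin c.k, (1 : ℝ) := by
        refine Finset.sum_le_sum fun i _ => ?_
        rw [div_le_iff₀ hLR, one_mul]
        calc _ ≤ ∑ l ∈ range L, (1 : ℝ) := Finset.sum_le_sum fun l _ => mm_le_one c _ _ _
          _ = L := by simp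
    _ = c.k := by simp

theorem dL_comm (W L : ℕ) (x y : c.X) : c.dL W L (x, y) = c.dL W L (y, x) := by
  rw [dL_eq, dL_eq]
  refine Finset.sum_congr rfl fun i _ => ?_
  congr 1
  exact Finset.sum_congr rfl fun l _ => mm_comm c _ _ _

theorem dL_tri (W L : ℕ) (x y z : c.X) :
    c.dL W L (x, z) ≤ c.dL W L (x, y) + c.dL W L (y, z) := by
  rw [dL_eq, dL_eq, dL_eq, ← Finset.sum_add_distrib]
  refine Finset.sum_le_sum fun i _ => ?_
  rw [← add_div, ← Finset.sum_add_distrib]
  refine div_le_div_of_nonneg_right ?_ (Nat.cast_nonneg _)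
  exact Finset.sum_le_sum fun l _ => mm_tri c _ _ _ _

theorem Dt_meas (i : Fin c.k) : Measurable (c.Dt i) := c.Dm.comp (meas_it c.T (c.β i))

theorem dl_meas (i : Fin c.k) : Measurable (dl c.D1 c.D2 i) := by
  unfold dl
  refine Measurable.ite ?_ measurable_const measurable_const
  exact measurableSet_eq_fun ((Dt_meas c i).comp measurable_fst) ((Dt_meas c i).comp measurable_snd)

theorem dL_meas (W L : ℕ) : Measurable (c.dL W L) := by
  unfold CtxE.dL
  exact Finset.measurable_sum _ fun i _ => av_meas (TT c.T) W L (dl_meas c i)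

theorem TX_it (n m : ℕ) (q : XX c.X n) : (TX c.T n)^[m] q =
    ((c.T^[m] q.1.1, c.T^[m] q.1.2), (fun b => c.T^[m] (q.2.1 b), c.T^[m] q.2.2)) := by
  induction m generalizing q with
  | zero => rfl
  | succ m ih =>
    rw [Function.iterate_succ_apply, ih]
    rfl

theorem pl_meas (n : ℕ) (b : Fin n) : Measurable fun q : XX c.X n => (q.2.1 b, q.2.2) :=
  ((measurable_pi_apply b).comp (measurable_fst.comp measurable_snd)).prodMk
    (measurable_snd.comp measurable_snd)

theorem B_meas (n : ℕ) {B : Set c.X} (hB : MeasurableSet B) :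
    MeasurableSet {q : XX c.X n | q.1.1 ∈ B} := (measurable_fst.comp measurable_fst) hB

theorem GG_meas (W L n : ℕ) {B : Set c.X} (hB : MeasurableSet B) :
    MeasurableSet (c.GG W L n B) := by
  have e : c.GG W L n B = {q : XX c.X (n + 1) | q.1.1 ∈ B} ∩
      ((⋃ b : Fin (n + 1), {q : XX c.X (n + 1) | c.dL W L (q.2.1 b, q.2.2) ≤ 1 / 2}) ∩
      ⋂ b : Fin (n + 1), ({q : XX c.X (n + 1) | c.dL W L (q.2.1 b, q.2.2) ≤ m₁ + 1 / 2000} ∪
        {q : XX c.X (n + 1) | 1 - m₁ - 1 / 2000 ≤ c.dL W L (q.2.1 b, q.2.2)})) := by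
    ext q
    simp only [CtxE.GG, Set.mem_inter_iff, Set.mem_iUnion, Set.mem_iInter, Set.mem_union,
      Set.mem_ofPred_eq]
  have hD : ∀ b : Fin (n + 1), Measurable fun q : XX c.X (n + 1) =>
      c.dL W L (q.2.1 b, q.2.2) := fun b => (dL_meas c W L).comp (pl_meas c (n + 1) b)
  rw [e]
  refine (B_meas c (n + 1) hB).inter (MeasurableSet.inter ?_ ?_)
  · exact MeasurableSet.iUnion fun b => measurableSet_le (hD b) measurable_const
  · exact MeasurableSet.iInter fun b => (measurableSet_le (hD b) measurable_const).union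
      (measurableSet_le measurable_const (hD b))

theorem BG_meas (W L n : ℕ) {B : Set c.X} (hB : MeasurableSet B) :
    MeasurableSet (c.BG W L n B) :=
  (B_meas c (n + 1) hB).inter (GG_meas c W L n hB).compl

theorem sel_mem (W L n : ℕ) (B : Set c.X) (q : XX c.X (n + 1)) (hB : q.1.1 ∈ B)
    (b : Fin (n + 1)) (hb : c.dL W L (q.2.1 b, q.2.2) ≤ 1 / 2) :
    c.dL W L (q.2.1 (c.sel W L n B q), q.2.2) ≤ 1 / 2 := by
  classical
  have h : (univ.filter fun b => c.dL W L (q.2.1 b, q.2.2) ≤ 1 / 2).Nonempty ∧ q.1.1 ∈ B :=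
    ⟨⟨b, by simp only [Finset.mem_filter, Finset.mem_univ, true_and]; exact hb⟩, hB⟩
  have h1 : c.sel W L n B q =
      (univ.filter fun b => c.dL W L (q.2.1 b, q.2.2) ≤ 1 / 2).min' h.1 := by
    unfold CtxE.sel
    rw [dif_pos h]
  rw [h1]
  exact (Finset.mem_filter.1 (Finset.min'_mem _ h.1)).2

/-- the pointwise estimate -/
theorem point (W L n : ℕ) (hL : 0 < L) (B : Set c.X) (A : Set (XX c.X (n + 1)))
    (hA : ∀ q ∈ A, q.1.1 ∈ B) (q : XX c.X (n + 1)) :
    A.indicator (fun q => c.dL W L (q.2.1 (c.sel W L n B q), q.2.2)) q ≤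
    (m₁ + 1 / 2000) * A.indicator (fun _ => (1 : ℝ)) q +
    (c.k : ℝ) * (c.BG W L n B).indicator (fun _ => (1 : ℝ)) q := by
  have hm1 : (0 : ℝ) ≤ m₁ := by unfold m₁; norm_num
  have hk0 : (0 : ℝ) ≤ c.k := Nat.cast_nonneg _
  by_cases hq : q ∈ A
  · have hB := hA q hq
    rw [Set.indicator_of_mem hq, Set.indicator_of_mem hq, mul_one]
    by_cases hG : q ∈ c.GG W L n B
    · have e3 : (c.BG W L n B).indicator (fun _ => (1 : ℝ)) q = 0 :=
        Set.indicator_of_notMem (fun h => h.2 hG) _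
      rw [e3, mul_zero, add_zero]
      obtain ⟨-, ⟨b0, hb0⟩, hG3⟩ := hG
      have hu := sel_mem c W L n B q hB b0 hb0
      rcases hG3 (c.sel W L n B q) with h | h
      · exact h
      · exfalso
        have h6 : m₁ = 13 / 100 := rfl
        rw [h6] at h
        linarith
    · have e3 : (c.BG W L n B).indicator (fun _ => (1 : ℝ)) q = 1 :=
        Set.indicator_of_mem (s := c.BG W L n B) ⟨hB, hG⟩ _
      rw [e3, mul_one]
      have := dL_le c W L hL (q.2.1 (c.sel W L n B q)) q.2.2
      linarith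
  · rw [Set.indicator_of_notMem hq, Set.indicator_of_notMem hq, mul_zero, zero_add]
    exact mul_nonneg hk0 (Set.indicator_nonneg (fun _ _ => zero_le_one) q)

end one

/-- **MSM.** -/
theorem pf_MSM (hslv : T_SLV) : T_MSM := by
  intro c B W L n h P _ A hP hW hL hLh hB hA hAB
  obtain ⟨hsel, -, -⟩ := hslv c B W L n 0 P hP hW hL hB
  have hLR : (0 : ℝ) < L := by exact_mod_cast hL
  obtain ⟨hBm, -⟩ := (set_inv_iff c.T W B).1 hB
  obtain ⟨hAm, hAi⟩ := (set_inv_iff (TX c.T (n + 1)) W A).1 hA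
  have hAi' : ∀ (l : ℕ) (q : XX c.X (n + 1)), (TX c.T (n + 1))^[W * l] q ∈ A ↔ q ∈ A := by
    intro l
    induction l with
    | zero => intro x; simp
    | succ l ih =>
      intro x
      have : (TX c.T (n + 1))^[W * (l + 1)] x =
          (TX c.T (n + 1))^[W] ((TX c.T (n + 1))^[W * l] x) := by
        rw [← Function.iterate_add_apply]
        congr 1
        ring
      rw [this, hAi, ih]
  have hBGm := BG_meas c W L n hBm
  -- the sets
  set F : Fin c.k → ℕ → Set (XX c.X (n + 1)) := fun i l => {q | q ∈ A ∧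
    c.Dt i (c.T^[W * l] (q.2.1 (c.sel W L n B q))) ≠ c.Dt i (c.T^[W * l] q.2.2)} with hF
  have hFm : ∀ i l, MeasurableSet (F i l) := by
    intro i l
    have h1 : F i l = ⋃ b : Fin (n + 1), ((c.sel W L n B) ⁻¹' {b} ∩ (A ∩
        {q | c.Dt i (c.T^[W * l] (q.2.1 b)) ≠ c.Dt i (c.T^[W * l] q.2.2)})) := by
      ext q
      simp only [hF, Set.mem_ofPred_eq, Set.mem_iUnion, Set.mem_inter_iff, Set.mem_preimage,
        Set.mem_singleton_iff]
      constructor
      · rintro ⟨h1, h2⟩
        exact ⟨c.sel W L n B q, rfl, h1, h2⟩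
      · rintro ⟨b, rfl, h1, h2⟩
        exact ⟨h1, h2⟩
    rw [h1]
    refine MeasurableSet.iUnion fun b => (hsel (measurableSet_singleton b)).inter
      (hAm.inter ?_)
    refine MeasurableSet.compl (measurableSet_eq_fun ?_ ?_)
    · exact (Dt_meas c i).comp ((meas_it c.T (W * l)).comp
        ((measurable_pi_apply b).comp (measurable_fst.comp measurable_snd)))
    · exact (Dt_meas c i).comp ((meas_it c.T (W * l)).comp
        (measurable_snd.comp measurable_snd))
  have hE0 : ∀ i, {q : XX c.X (n + 1) | q ∈ A ∧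
      c.Dt i (q.2.1 (c.sel W L n B q)) ≠ c.Dt i q.2.2} = F i 0 := by
    intro i
    ext q
    simp [hF]
  -- step 1
  have step1 : ∀ i, ∀ l < L, P.real (F i 0) ≤ P.real (F i l) +
      32 * c.k * P.real (c.BG W L n B) := by
    intro i l hl
    have hS := mp_it hP (W * l)
    have h1 : P.real (F i 0) = P.real ((TX c.T (n + 1))^[W * l] ⁻¹' (F i 0)) := by
      rw [measureReal_def, measureReal_def, hS.measure_preimage (hFm i 0).nullMeasurableSet]
    have h2 : (TX c.T (n + 1))^[W * l] ⁻¹' (F i 0) ⊆ F i l ∪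
        {q | c.sel W L n B ((TX c.T (n + 1))^[W * l] q) ≠ c.sel W L n B q} := by
      intro q hq
      by_cases hs : c.sel W L n B ((TX c.T (n + 1))^[W * l] q) = c.sel W L n B q
      · left
        simp only [hF, Set.mem_preimage, Set.mem_ofPred_eq, mul_zero, Function.iterate_zero,
          id_eq] at hq ⊢
        rw [hs] at hq
        refine ⟨(hAi' l q).1 hq.1, ?_⟩
        have h3 := hq.2
        rw [TX_it c (n + 1) (W * l) q] at h3
        exact h3
      · right
        exact hs
    obtain ⟨-, -, h3⟩ := hslv c B W L n l P hP hW hL hB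
    have h4 := h3 h hLh hl.le
    rw [h1]
    refine (measureReal_mono h2).trans ((measureReal_union_le _ _).trans ?_)
    linarith
  have step2 : ∀ i, P.real (F i 0) ≤ (∑ l ∈ range L, P.real (F i l)) / L +
      32 * c.k * P.real (c.BG W L n B) := by
    intro i
    have h1 : ∑ l ∈ range L, P.real (F i 0) ≤ ∑ l ∈ range L, (P.real (F i l) +
      32 * c.k * P.real (c.BG W L n B)) :=
      Finset.sum_le_sum fun l hl => step1 i l (Finset.mem_range.1 hl)
    rw [Finset.sum_add_distrib, Finset.sum_const, Finset.sum_const, Finset.card_range,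
      nsmul_eq_mul, nsmul_eq_mul] at h1
    rw [← sub_le_iff_le_add, le_div_iff₀ hLR]
    linarith
  have step3 : ∑ i, P.real (F i 0) ≤ (∑ i, (∑ l ∈ range L, P.real (F i l)) / L) +
      32 * (c.k : ℝ) ^ 2 * P.real (c.BG W L n B) := by
    refine (Finset.sum_le_sum fun i _ => step2 i).trans (le_of_eq ?_)
    rw [Finset.sum_add_distrib, Finset.sum_const, Finset.card_univ, Fintype.card_fin,
      nsmul_eq_mul]
    ring
  -- step 4: the integral
  have step4 : (∑ i, (∑ l ∈ range L, P.real (F i l)) / L) =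
      ∫ q, A.indicator (fun q => c.dL W L (q.2.1 (c.sel W L n B q), q.2.2)) q ∂P := by
    have h1 : ∀ i l, P.real (F i l) = ∫ q, (F i l).indicator (fun _ => (1 : ℝ)) q ∂P := by
      intro i l
      rw [integral_indicator_const _ (hFm i l), smul_eq_mul, mul_one]
    have hi : ∀ i l, Integrable ((F i l).indicator (fun _ => (1 : ℝ))) P := fun i l =>
      (integrable_const (1 : ℝ)).indicator (hFm i l)
    have h2 : ∀ i, (∑ l ∈ range L, P.real (F i l)) / L =
        ∫ q, (∑ l ∈ range L, (F i l).indicator (fun _ => (1 : ℝ)) q) / L ∂P := by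
      intro i
      rw [integral_div, integral_finsetSum _ (fun l _ => hi i l)]
      congr 1
      exact Finset.sum_congr rfl fun l _ => h1 i l
    rw [Finset.sum_congr rfl fun i _ => h2 i, ← integral_finsetSum _ (fun i _ =>
      (integrable_finsetSum _ fun l _ => hi i l).div_const _)]
    refine integral_congr_ae (ae_of_all _ fun q => ?_)
    by_cases hq : q ∈ A
    · have e1 : A.indicator (fun q => c.dL W L (q.2.1 (c.sel W L n B q), q.2.2)) q =
        c.dL W L (q.2.1 (c.sel W L n B q), q.2.2) := Set.indicator_of_mem hq _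
      simp only [e1]
      rw [dL_eq]
      refine Finset.sum_congr rfl fun i _ => ?_
      congr 1
      refine Finset.sum_congr rfl fun l _ => ?_
      by_cases hne : c.Dt i (c.T^[W * l] (q.2.1 (c.sel W L n B q))) = c.Dt i (c.T^[W * l] q.2.2)
      · rw [mm_eq c hne]
        exact Set.indicator_of_notMem (fun h => h.2 hne) _
      · rw [mm_ne c hne]
        exact Set.indicator_of_mem (s := F i l) ⟨hq, hne⟩ _
    · have e1 : A.indicator (fun q => c.dL W L (q.2.1 (c.sel W L n B q), q.2.2)) q = 0 :=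
        Set.indicator_of_notMem hq _
      simp only [e1]
      refine Finset.sum_eq_zero fun i _ => ?_
      rw [Finset.sum_eq_zero, zero_div]
      intro l _
      exact Set.indicator_of_notMem (fun h => hq h.1) _
  -- step 5
  have hBi1 : Integrable (fun q => (m₁ + 1 / 2000) * A.indicator (fun _ => (1 : ℝ)) q) P :=
    ((integrable_const (1 : ℝ)).indicator hAm).const_mul _
  have hGi1 : Integrable (fun q => (c.k : ℝ) *
      (c.BG W L n B).indicator (fun _ => (1 : ℝ)) q) P :=
    ((integrable_const (1 : ℝ)).indicator hBGm).const_mul _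
  have step5 : ∫ q, A.indicator (fun q => c.dL W L (q.2.1 (c.sel W L n B q), q.2.2)) q ∂P ≤
      (m₁ + 1 / 2000) * P.real A + (c.k : ℝ) * P.real (c.BG W L n B) := by
    have h1 : ∫ q, A.indicator (fun q => c.dL W L (q.2.1 (c.sel W L n B q), q.2.2)) q ∂P ≤
        ∫ q, ((m₁ + 1 / 2000) * A.indicator (fun _ => (1 : ℝ)) q +
          (c.k : ℝ) * (c.BG W L n B).indicator (fun _ => (1 : ℝ)) q) ∂P := by
      refine integral_mono_of_nonneg (ae_of_all _ fun q => ?_) (hBi1.add hGi1)
        (ae_of_all _ fun q => point c W L n hL B A hAB q)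
      exact Set.indicator_nonneg (fun q _ => dL_nonneg c W L _ _) q
    refine h1.trans (le_of_eq ?_)
    rw [integral_add hBi1 hGi1, integral_const_mul,
      integral_const_mul, integral_indicator_const _ hAm, integral_indicator_const _ hBGm,
      smul_eq_mul, mul_one, smul_eq_mul, mul_one]
  rw [Finset.sum_congr rfl fun i _ => by rw [hE0 i]]
  rw [step4] at step3
  have e : ((c.k : ℝ) + 32 * (c.k : ℝ) ^ 2) * P.real (c.BG W L n B) =
    (c.k : ℝ) * P.real (c.BG W L n B) + 32 * (c.k : ℝ) ^ 2 * P.real (c.BG W L n B) := by ring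
  rw [e]
  linarith

end Pool.Agent.H66.SG.MSM
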